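import Pool.Agent.Helper875.MonoG
import Pool.Agent.Helper875.MonoQ

/-!
The set of cardinalities of the sets of order-preserving maps from a finite ordered set to the
four element chain: all positive integers with an explicit finite list of exceptions.
-/

set_option maxRecDepth 100000

namespace Pool.Agent.Results.MP_2844f6_co.Main

open Pool.Agent.Helper875.MonoF Pool.Agent.Helper875.MonoQ

/-- The exceptional numbers from 2 to 59. -/
def exc0 : List ℕ :=
  [2, 3, 5, 6, 7, 8, 9, 11, 12, 13, 14, 15, 17, 18, 19, 21, 22, 23, 24, 25, 26, 27, 28, 29, 31,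
   32, 33, 34, 36, 37, 38, 39, 41, 42, 43, 44, 45, 46, 47, 48, 49, 51, 52, 53, 54, 55, 57, 58, 59]

/-- The exceptional numbers from 60 to 118. -/
def exc1 : List ℕ :=
  [60, 61, 62, 63, 66, 67, 68, 69, 71, 72, 73, 74, 75, 76, 78, 79, 81, 82, 83, 86, 87, 88, 89,
   90, 91, 92, 93, 94, 95, 96, 97, 99, 101, 102, 103, 105, 106, 107, 108, 109, 110, 111, 113,
   114, 115, 116, 117, 118]

/-- The exceptional numbers from 121 to 178. -/
def exc2 : List ℕ :=
  [121, 122, 123, 124, 126, 127, 128, 129, 130, 132, 133, 134, 135, 136, 137, 138, 139, 141, 142,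
   143, 144, 145, 148, 149, 150, 151, 153, 154, 155, 157, 159, 161, 162, 163, 164, 166, 167, 169,
   170, 171, 172, 174, 176, 177, 178]

/-- The exceptional numbers from 180 to 239. -/
def exc3 : List ℕ :=
  [180, 181, 183, 184, 185, 186, 187, 188, 189, 191, 193, 194, 195, 197, 198, 199, 201, 202, 204,
   205, 207, 208, 209, 211, 212, 213, 214, 215, 216, 218, 221, 222, 223, 226, 229, 230, 231, 232,
   233, 234, 235, 237, 239]

/-- The exceptional numbers from 240 to 339. -/
def exc4 : List ℕ :=
  [240, 241, 242, 243, 247, 248, 249, 250, 251, 254, 257, 258, 261, 262, 263, 265, 266, 268, 269,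
   270, 271, 274, 276, 277, 278, 279, 281, 282, 283, 284, 285, 289, 290, 291, 292, 293, 298, 299,
   301, 304, 305, 307, 310, 311, 312, 313, 314, 315, 319, 321, 323, 325, 326, 327, 329, 331, 333,
   334, 335, 337, 339]

/-- The exceptional numbers from 342 to 478. -/
def exc5 : List ℕ :=
  [342, 343, 346, 347, 351, 353, 355, 356, 357, 361, 362, 366, 367, 369, 370, 371, 374, 375, 377,
   378, 379, 383, 386, 388, 391, 396, 397, 398, 401, 406, 407, 409, 412, 413, 414, 419, 421, 423,
   424, 425, 432, 433, 434, 437, 439, 441, 443, 449, 451, 452, 453, 458, 459, 461, 468, 469, 474,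
   477, 478]

/-- The exceptional numbers from 483 to 801. -/
def exc6 : List ℕ :=
  [483, 486, 487, 493, 494, 496, 497, 501, 502, 503, 505, 511, 512, 513, 514, 521, 522, 526, 533,
   537, 538, 539, 547, 548, 549, 558, 559, 566, 575, 587, 599, 609, 619, 623, 631, 657, 661, 662,
   686, 693, 699, 704, 713, 714, 735, 777, 788, 789, 791, 799, 801]

/-- The 356 exceptional numbers, the smallest one is 2 and the largest one is 801. -/
def exceptions : List ℕ :=
  exc0 ++ exc1 ++ exc2 ++ exc3 ++ exc4 ++ exc5 ++ exc6

theorem exc_bad : ∀ n ∈ exceptions, n ≤ 801 ∧ 2 ≤ n ∧ (bad >>> n) % 2 = 1 := by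
  decide +kernel

theorem bad_exc : ∀ n < 802, (bad >>> n) % 2 = 1 → n ∈ exceptions := by
  decide +kernel

theorem bad_lt : bad < 2 ^ 802 := by
  decide +kernel

theorem bad_false {n : ℕ} (h : n ∉ exceptions) : bad.testBit n = false := by
  by_contra hcon
  have h1 : bad.testBit n = true := by simpa using hcon
  have h2 : n < 802 := by
    by_contra h3
    have : bad.testBit n = false := by
      apply Nat.testBit_lt_two_pow
      exact lt_of_lt_of_le bad_lt (Nat.pow_le_pow_right (by norm_num) (by omega))
    rw [this] at h1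
    simp at h1
  apply h
  apply bad_exc n h2
  rw [Nat.testBit_eq_decide_div_mod_eq, decide_eq_true_eq] at h1
  rw [Nat.shiftRight_eq_div_pow]
  exact h1

theorem finite_hom (P : Type) [PartialOrder P] [Finite P] : Finite (P →o Fin 4) :=
  Finite.of_injective (fun f : P →o Fin 4 => (f : P → Fin 4)) DFunLike.coe_injective

theorem card_empty (P : Type) [PartialOrder P] [IsEmpty P] : Nat.card (P →o Fin 4) = 1 := by
  have : Unique (P →o Fin 4) :=
    ⟨⟨⟨fun x => isEmptyElim x, fun x => isEmptyElim x⟩⟩, fun f => by ext x; exact isEmptyElim x⟩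
  exact Nat.card_unique

theorem one_lt (P : Type) [PartialOrder P] [Finite P] [Nonempty P] :
    1 < Nat.card (P →o Fin 4) := by
  have := finite_hom P
  have h2 : Nontrivial (P →o Fin 4) := by
    refine ⟨⟨fun _ => 0, fun _ _ _ => le_rfl⟩, ⟨fun _ => 1, fun _ _ _ => le_rfl⟩, ?_⟩
    intro h
    obtain ⟨x⟩ := ‹Nonempty P›
    have := DFunLike.congr_fun h x
    change (0 : Fin 4) = 1 at this
    exact absurd this (by decide)
  exact Finite.one_lt_card

theorem pos (P : Type) [PartialOrder P] [Finite P] : 0 < Nat.card (P →o Fin 4) := by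
  rcases isEmpty_or_nonempty P with h | h
  · rw [card_empty P]; norm_num
  · exact lt_trans (by norm_num) (one_lt P)

theorem not_exc (P : Type) [PartialOrder P] [Finite P] : Nat.card (P →o Fin 4) ∉ exceptions := by
  intro h
  obtain ⟨h1, h2, h3⟩ := exc_bad _ h
  rcases isEmpty_or_nonempty P with h4 | h4
  · rw [card_empty P] at h2; omega
  · have := Pool.Agent.Helper875.MonoG.not_bad P h1
    omega

/-- The first part allows the empty ordered set, the second part does not. -/
theorem result :
    (∀ n : ℕ, (∃ (P : Type) (_ : PartialOrder P) (_ : Finite P), Nat.card (P →o Fin 4) = n) ↔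
      0 < n ∧ n ∉ exceptions) ∧
    (∀ n : ℕ, (∃ (P : Type) (_ : PartialOrder P) (_ : Finite P) (_ : Nonempty P),
      Nat.card (P →o Fin 4) = n) ↔ 1 < n ∧ n ∉ exceptions) := by
  constructor
  · intro n
    constructor
    · rintro ⟨P, _, _, rfl⟩
      exact ⟨pos P, not_exc P⟩
    · rintro ⟨h1, h2⟩
      by_cases h3 : n = 1
      · subst h3
        exact ⟨PEmpty, inferInstance, inferInstance, card_empty _⟩
      · exact exists_of n (by omega) (bad_false h2)
  · intro n
    constructor
    · rintro ⟨P, _, _, _, rfl⟩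
      exact ⟨one_lt P, not_exc P⟩
    · rintro ⟨h1, h2⟩
      obtain ⟨P, i1, i2, h3⟩ := exists_of n (by omega) (bad_false h2)
      refine ⟨P, i1, i2, ?_, h3⟩
      by_contra hcon
      rw [not_nonempty_iff] at hcon
      rw [card_empty P] at h3
      omega

end Pool.Agent.Results.MP_2844f6_co.Main
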